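import Pool.Agent.RS61.Main

/-!
# Compact shrinking solitons of cohomogeneity one with a circle factor are Einstein

Let a compact group `S¹ × K` act isometrically and with cohomogeneity one on a compact shrinking
soliton `(M, g, f)`, such that on the union of the principal orbits `(0, T) × S¹ × N`
`g = dt² + a(t)² dθ² + h_t`, `h_t` a family of metrics on `N = K / H`, and `f = f(t)`. Let the circle
collapse at `t = 0`, and let `N` collapse (partially or to a point) at `t = T`. Smoothness of `g` and `f` at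
the singular orbits gives `a(0) = 0`, `a'(T) = 0`, `f'(0) = f'(T) = 0`; in local coordinates `y` of `N` the
determinant of `h_t` is bounded, and tends to zero for `t → T`. For example, all metrics on `S^n`, `n ≥ 3`,
invariant under `O(2) × O(n - 1)` are of this form, with `h_t = b(t)² g_{S^{n-2}}`.

The theorem is about the part of `M` with the coordinates `t`, `θ`, `y`; it says that `f` is constant and `g`
is Einstein. There is no assumption on the curvature.

* `RS61.Idx κ₁ κ₂` is the set of the coordinates `t = z none`, `x_i = z (some (inl i))`, `i ∈ κ₁` (here only one,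
  `θ`), and `y_j = z (some (inr j))`, `j ∈ κ₂`.
* `RS61.dom T V₁ V₂`: the points `(t, x, y)` with `0 < t < T`, `x ∈ V₁`, `y ∈ V₂`.
* `RS61.wmet a k h`: the metric `dt² + a(t)² k(x) + h(t, y)`; here `k = dθ²`.
* `RS61.ric pd (RS61.chr pd g (RS61.minv g))`: the Ricci curvature of `g`, `RS61.IsSoliton U g f lam`: the
  equation `Ric_g + ∇² f = lam g` on `U`. See `Pool/Agent/RS61/Defs.lean`, `Block.lean` and `Setup.lean`.
-/

namespace Pool.Agent.Results.MP_5be891_gt.CircleFactor

open Set Filter Topology RS61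
open scoped ContDiff

/-- Let `lam > 0`, `a` and `f` be smooth functions with `a > 0` on `(0, T)`, `a(0) = 0`, `a'(T) = 0`,
`f'(0) = f'(T) = 0`, and `h_t`, `0 < t < T`, a smooth family of Riemannian metrics on the open set
`V ⊆ ℝ^κ`, whose determinant at one point `y₀` is bounded and tends to zero for `t → T`. If
`g = dt² + a(t)² dθ² + h_t` satisfies `Ric_g + ∇² f = lam g`, `f = f(t)`, on `(0, T) × ℝ × V`, then `f` is constant
on `[0, T]` and `Ric_g = lam g`. -/
theorem result {κ : Type} [Fintype κ] [DecidableEq κ] {T lam : ℝ} (hT : 0 < T) (hlam : 0 < lam)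
    {a f : ℝ → ℝ} (ha : ContDiff ℝ ∞ a) (hf : ContDiff ℝ ∞ f) (hpos : ∀ t ∈ Ioo 0 T, 0 < a t)
    (ha0 : a 0 = 0) (haT : deriv a T = 0) (hf0 : deriv f 0 = 0) (hfT : deriv f T = 0)
    {V : Set (κ → ℝ)} (hV : IsOpen V) {h : ℝ → κ → κ → Raw κ}
    (hh : ∀ i j, ContDiffOn ℝ ∞ (fun q : ℝ × (κ → ℝ) => h q.1 i j q.2) (Ioo 0 T ×ˢ V))
    (hpd : ∀ t ∈ Ioo 0 T, ∀ y ∈ V, (Matrix.of fun i j => h t i j y).PosDef)
    {y₀ : κ → ℝ} (hy₀ : y₀ ∈ V)
    (hbdd : ∃ C, ∀ t ∈ Ioo 0 T, (Matrix.of fun i j => h t i j y₀).det ≤ C)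
    (hlim : Tendsto (fun t => (Matrix.of fun i j => h t i j y₀).det) (𝓝[<] T) (𝓝 0))
    (hS : IsSoliton (dom T univ V) (wmet (κ₁ := Unit) a (fun _ _ _ => 1) h)
      (fun z => f (z none)) lam) :
    (∀ t ∈ Icc 0 T, f t = f 0) ∧
    ∀ z ∈ dom T univ V, ∀ i j, ric pd (chr pd (wmet (κ₁ := Unit) a (fun _ _ _ => 1) h)
      (minv (wmet (κ₁ := Unit) a (fun _ _ _ => 1) h))) i j z
        = lam * wmet (κ₁ := Unit) a (fun _ _ _ => 1) h i j z := by
  have hk : IsRiem (univ : Set (Unit → ℝ)) (fun _ _ _ => (1 : ℝ)) :=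
    { isOpen := isOpen_univ
      smooth := fun _ _ => contDiffOn_const
      posDef := fun z _ => by
        have h1 : (Matrix.of fun (_ _ : Unit) => (1 : ℝ)) = (1 : Matrix Unit Unit ℝ) := by
          ext i j; simp
        rw [h1]; exact Matrix.PosDef.one }
  have I : IsBlock T univ V a f (fun _ _ _ => (1 : ℝ)) h := ⟨ha, hf, hpos, hk, hV, hh, hpd⟩
  have hx : (fun _ => 0 : Unit → ℝ) ∈ (univ : Set (Unit → ℝ)) := mem_univ _
  have O := I.odata hS hT hx hy₀ () hbdd ha0 haT hf0 hfT
  have hc : I.cst (fun _ => 0) y₀ () = 0 := by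
    unfold IsBlock.cst
    rw [BData.Rk_unique]
    have hm : T / 2 ∈ Ioo 0 T := ⟨by linarith, by linarith⟩
    rw [IsBlock.lin_eq hx hy₀ _ hm, map_zero, zero_div]
  rw [hc, Fintype.card_unit] at O
  have hdf : ∀ t ∈ Icc 0 T, deriv f t = 0 :=
    O.circle_trivial hlam hlim (fun t ht => I.τ_nonneg hx hy₀ ht)
      (fun t ht h0 => I.σ_of_τ hx hy₀ ht h0)
  exact ⟨IsBlock.const_of_deriv hf hdf, I.einstein_of_const hS hdf⟩

end Pool.Agent.Results.MP_5be891_gt.CircleFactor
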