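import Pool.Agent.RS61.Cohom

/-!
# The potential of a compact shrinking soliton of cohomogeneity one is constant or strictly monotone

Let a compact Lie group `G` act isometrically and with cohomogeneity one on a compact shrinking soliton
`(M, g, f)`, `f` invariant under `G`. Then `M / G` is an interval (a circle is excluded, as the fundamental
group is finite), and on the union `(0, T) × G / K` of the principal orbits
`g = dt² + h_t` with a family `h_t` of `G`-invariant metrics on `G / K`, and `f = f(t)`. As `f` is smooth at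
the two non-principal orbits `t = 0` and `t = T`, `f'(0) = f'(T) = 0`. The theorem says that either `f` is
constant and `g` is Einstein, or `f' > 0` on `(0, T)`, or `f' < 0` on `(0, T)`. So on a nontrivial soliton all
critical points of `f` lie on the two non-principal orbits. In particular `g` is Einstein if an isometry of `M`
interchanges the two non-principal orbits. There is no assumption on the curvature and on the behaviour of
`h_t` for `t → 0` and `t → T`, and `G / K` is replaced by an open set `V ⊆ ℝ^κ`.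

* `Option κ` is the set of the coordinates `t = z none` and `y_j = z (some j)`, `j ∈ κ`.
* `RS61.cdom T V`: the points `(t, y)` with `0 < t < T`, `y ∈ V`; `RS61.cmet h`: the metric `dt² + h(t, y)`.
* `RS61.ric pd (RS61.chr pd g (RS61.minv g))`: the Ricci curvature of `g`, `RS61.IsSoliton U g f lam`: the
  equation `Ric_g + ∇² f = lam g` on `U`. See `Pool/Agent/RS61/Defs.lean` and `Cohom.lean`.
-/

namespace Pool.Agent.Results.MP_5be891_gt.MonotonePotential

open Set Filter Topology RS61
open scoped ContDiff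

/-- Let `f` be a smooth function with `f'(0) = f'(T) = 0` and `h_t`, `0 < t < T`, a smooth family of
Riemannian metrics on the nonempty open set `V ⊆ ℝ^κ`, such that `g = dt² + h(t, y)` and `f = f(t)` satisfy
`Ric_g + ∇² f = lam g` on `(0, T) × V`, `lam > 0`. Then either `f` is constant on `[0, T]` and
`Ric_g = lam g`, or `f' > 0` on `(0, T)`, or `f' < 0` on `(0, T)`. -/
theorem result {κ : Type} [Fintype κ] [DecidableEq κ] {T lam : ℝ} (hT : 0 < T) (hlam : 0 < lam)
    {f : ℝ → ℝ} (hf : ContDiff ℝ ∞ f) (hf0 : deriv f 0 = 0) (hfT : deriv f T = 0)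
    {V : Set (κ → ℝ)} (hV : IsOpen V) (hne : V.Nonempty) {h : ℝ → κ → κ → Raw κ}
    (hh : ∀ i j, ContDiffOn ℝ ∞ (fun q : ℝ × (κ → ℝ) => h q.1 i j q.2) (Ioo 0 T ×ˢ V))
    (hpd : ∀ t ∈ Ioo 0 T, ∀ y ∈ V, (Matrix.of fun i j => h t i j y).PosDef)
    (hS : IsSoliton (cdom T V) (cmet h) (fun z => f (z none)) lam) :
    ((∀ t ∈ Icc 0 T, f t = f 0) ∧
      ∀ z ∈ cdom T V, ∀ i j, ric pd (chr pd (cmet h) (minv (cmet h))) i j z = lam * cmet h i j z) ∨
    (∀ t ∈ Ioo 0 T, 0 < deriv f t) ∨ (∀ t ∈ Ioo 0 T, deriv f t < 0) := by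
  obtain ⟨y, hy⟩ := hne
  obtain ⟨σ, τ, O⟩ := cdata hT hlam hf hV hh hpd hS hy
  by_cases h1 : ∃ t ∈ Ioo 0 T, deriv f t = 0
  · left
    obtain ⟨t1, ht1, h2⟩ := h1
    have hdf := O.df_eq_zero ht1 hf0 h2 hfT
    refine ⟨IsBlock.const_of_deriv hf hdf, fun z hz i j => ?_⟩
    have h3 := (isBlock0 hf hV hh hpd).einstein_of_const (sol_tr hS) hdf _ ((cdom_iff z).1 hz)
      ((ie κ).symm i) ((ie κ).symm j)
    rw [ric_cmet, h3]
    congr 1
    have h4 := cmet_tr h ((ie κ).symm i) ((ie κ).symm j)
    rw [Equiv.apply_symm_apply, Equiv.apply_symm_apply] at h4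
    rw [h4]
    rfl
  · right
    push Not at h1
    have hc : ContinuousOn (deriv f) (Ioo 0 T) := O.v_smooth.continuous.continuousOn
    by_contra hcon
    push Not at hcon
    obtain ⟨⟨s, hs, hs'⟩, ⟨u, hu, hu'⟩⟩ := hcon
    have h2 : (0 : ℝ) ∈ deriv f '' Ioo 0 T :=
      (isPreconnected_Ioo.image (deriv f) hc).ordConnected.out ⟨s, hs, rfl⟩ ⟨u, hu, rfl⟩ ⟨hs', hu'⟩
    obtain ⟨t, ht, h3⟩ := h2
    exact h1 t ht h3

end Pool.Agent.Results.MP_5be891_gt.MonotonePotential
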