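import Pool.Agent.RS61.Main

/-!
# Compact shrinking solitons of cohomogeneity one and positive curvature with a round factor are Einstein

Let a compact group `O(p + 1) × K` act isometrically and with cohomogeneity one on a compact shrinking
soliton `(M, g, f)`, such that on the union of the principal orbits `(0, T) × S^p × N`
`g = dt² + a(t)² g_{S^p} + h_t`, `h_t` a family of metrics on `N = K / H`, and `f = f(t)`. Let the sphere
collapse at `t = 0`, and let `N` collapse (partially or to a point) at `t = T`. Smoothness of `g` and `f` at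
the singular orbits gives `a(0) = 0`, `a'(T) = 0`, `f'(0) = f'(T) = 0`; in local coordinates `y` of `N` the
determinant of `h_t` is bounded. For example, all metrics on `S^{p+q+1}`, `p, q ≥ 1`, invariant under
`O(p + 1) × O(q + 1)` are of this form, with `h_t = b(t)² g_{S^q}`.

The theorem says that `f` is constant and `g` is Einstein if the sectional curvatures of the planes spanned
by `∂_t` and the vectors tangent to the sphere are positive, in particular if `g` has positive sectional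
curvature. In place of `S^p` any Riemannian manifold is allowed.

* `RS61.Idx κ₁ κ₂` is the set of the coordinates `t = z none`, `x_i = z (some (inl i))`, `i ∈ κ₁`, and
  `y_j = z (some (inr j))`, `j ∈ κ₂`.
* `RS61.dom T V₁ V₂`: the points `(t, x, y)` with `0 < t < T`, `x ∈ V₁`, `y ∈ V₂`.
* `RS61.wmet a k h`: the metric `dt² + a(t)² k(x) + h(t, y)`.
* `RS61.ric pd (RS61.chr pd g (RS61.minv g))`: the Ricci curvature of `g`, `RS61.IsSoliton U g f lam`: the
  equation `Ric_g + ∇² f = lam g` on `U`, `RS61.secNum g z u v`: `g(R(u, v) v, u)` at `z`. See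
  `Pool/Agent/RS61/Defs.lean`, `Block.lean` and `Setup.lean`.
-/

namespace Pool.Agent.Results.MP_5be891_gt.PositiveFactor

open Set Filter Topology RS61
open scoped ContDiff

/-- Let `a` and `f` be smooth functions with `a > 0` on `(0, T)`, `a(0) = 0`, `a'(T) = 0`,
`f'(0) = f'(T) = 0`, let `k` be a Riemannian metric on the open set `V₁ ⊆ ℝ^{κ₁}`, `κ₁` not empty, and `h_t`,
`0 < t < T`, a smooth family of Riemannian metrics on the open set `V₂ ⊆ ℝ^{κ₂}`, whose determinant at one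
point `y₀` is bounded. Let `g = dt² + a(t)² k(x) + h(t, y)` satisfy `Ric_g + ∇² f = lam g`, `f = f(t)`, on
`(0, T) × V₁ × V₂`. If all planes spanned by `∂_t` and a vector `v ≠ 0` tangent to the factor `V₁` have
positive sectional curvature, then `f` is constant on `[0, T]` and `Ric_g = lam g`. -/
theorem result {κ₁ κ₂ : Type} [Fintype κ₁] [DecidableEq κ₁] [Fintype κ₂] [DecidableEq κ₂]
    [Nonempty κ₁] {T lam : ℝ} (hT : 0 < T)
    {a f : ℝ → ℝ} (ha : ContDiff ℝ ∞ a) (hf : ContDiff ℝ ∞ f) (hpos : ∀ t ∈ Ioo 0 T, 0 < a t)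
    (ha0 : a 0 = 0) (haT : deriv a T = 0) (hf0 : deriv f 0 = 0) (hfT : deriv f T = 0)
    {V₁ : Set (κ₁ → ℝ)} (hne : V₁.Nonempty) {k : κ₁ → κ₁ → Raw κ₁} (hk : IsRiem V₁ k)
    {V₂ : Set (κ₂ → ℝ)} (hV : IsOpen V₂) {h : ℝ → κ₂ → κ₂ → Raw κ₂}
    (hh : ∀ i j, ContDiffOn ℝ ∞ (fun q : ℝ × (κ₂ → ℝ) => h q.1 i j q.2) (Ioo 0 T ×ˢ V₂))
    (hpd : ∀ t ∈ Ioo 0 T, ∀ y ∈ V₂, (Matrix.of fun i j => h t i j y).PosDef)
    {y₀ : κ₂ → ℝ} (hy₀ : y₀ ∈ V₂)
    (hbdd : ∃ C, ∀ t ∈ Ioo 0 T, (Matrix.of fun i j => h t i j y₀).det ≤ C)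
    (hS : IsSoliton (dom T V₁ V₂) (wmet a k h) (fun z => f (z none)) lam)
    (hsec : ∀ z ∈ dom T V₁ V₂, ∀ v : Idx κ₁ κ₂ → ℝ, v ≠ 0 → v none = 0 →
      (∀ j, v (some (Sum.inr j)) = 0) → 0 < secNum (wmet a k h) z (Pi.single none 1) v) :
    (∀ t ∈ Icc 0 T, f t = f 0) ∧
    ∀ z ∈ dom T V₁ V₂, ∀ i j, ric pd (chr pd (wmet a k h) (minv (wmet a k h))) i j z
        = lam * wmet a k h i j z := by
  obtain ⟨x₀, hx₀⟩ := hne
  obtain ⟨i⟩ := ‹Nonempty κ₁›
  have I : IsBlock T V₁ V₂ a f k h := ⟨ha, hf, hpos, hk, hV, hh, hpd⟩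
  have O := I.odata hS hT hx₀ hy₀ i hbdd ha0 haT hf0 hfT
  have h2 : ∀ t ∈ Ioo 0 T, deriv (deriv a) t < 0 := by
    intro t ht
    refine I.a2_neg_of_sec hx₀ hy₀ i ht (hsec _ (pt_mem ht hx₀ hy₀) _ ?_ ?_ ?_)
    · intro h0
      have := congrFun h0 (some (Sum.inl i))
      simp at this
    · simp
    · intro j; simp
  have h1 : ∀ t ∈ Ioo 0 T, 0 < deriv a t := by
    intro t ht
    have h3 : StrictAntiOn (deriv a) (Icc 0 T) := by
      refine strictAntiOn_of_deriv_neg (convex_Icc _ _) O.a1_smooth.continuous.continuousOn ?_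
      intro s hs
      rw [interior_Icc] at hs
      exact h2 s hs
    have h4 := h3 ⟨ht.1.le, ht.2.le⟩ ⟨hT.le, le_refl _⟩ ht.2
    rw [haT] at h4
    exact h4
  have hdf := O.df_eq_zero h1 h2
  exact ⟨IsBlock.const_of_deriv hf hdf, I.einstein_of_const hS hdf⟩

end Pool.Agent.Results.MP_5be891_gt.PositiveFactor
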