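import Pool.Agent.RS61.HSec

/-!
# Compact shrinking solitons of positive curvature with `U(n)` symmetry are Einstein

Let `U(n)`, `n ≥ 2`, act isometrically on a compact shrinking soliton `(M, g, f)` of dimension `2 n` with
principal orbits `S^{2n-1} = U(n) / U(n-1)`, for example on `S^{2n}` or `ℂP^n`, `f` invariant. On the union
`(0, T) × S^{2n-1}` of the principal orbits `g = dt² + a(t)² η² + b(t)² k` and `f = f(t)`, where `η` is the
contact form of the sphere, `k` the Fubini-Study metric of `ℂP^{n-1}`, `η² + k` the round metric of curvature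
one. In a local trivialisation `η = dθ + α` with a 1-form `α` on an open set `V` of `ℂP^{n-1}`, and `F = dα` is
twice the Kähler form, so that `F k⁻¹ Fᵀ = 4 k`. A non-principal orbit is a fixed point (a nut: `a = b = 0`,
`a' = b' = ± 1`) or a copy of `ℂP^{n-1}` (a bolt: `a = 0`, `a' = ± 1`, `b > 0`, `b' = 0`). The sphere `S^{2n}`
has two nuts, `ℂP^n` has a nut and a bolt. On `ℂP^n` with a point blown up, which carries the soliton of Koiso
and Cao, there are two bolts, and this is impossible in positive curvature.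

The theorem says that `f` is constant and `g` is Einstein if the planes spanned by `∂_t` and a horizontal
vector have positive curvature, in particular if `g` has positive sectional curvature. In place of
`(ℂP^{n-1}, k)` any Riemannian metric `k` with a closed 2-form `F = dα` with `F k⁻¹ Fᵀ = 4 k` is allowed.

* `Option (Option κ)` is the set of the coordinates `t = z none`, `θ = z (some none)` and
  `y_i = z (some (some i))`, `i ∈ κ`; `Raw κ` are the functions `ℝ^κ → ℝ`, `pd i` the partial derivatives.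
* `RS61.cdom T (RS61.vop V)`: the points `(t, θ, y)` with `0 < t < T`, `y ∈ V`;
  `RS61.etaC α`: the coefficients `1, α_i` of `η = dθ + α`;
  `RS61.hop a b α k t`: the metric `a(t)² η² + b(t)² k` in the coordinates `θ, y`;
  `RS61.cmet (RS61.hop a b α k)`: the metric `dt² + a(t)² η² + b(t)² k`.
* `RS61.Nut a b t₀ ε`: `a(t₀) = b(t₀) = 0`, `a'(t₀) = b'(t₀) = ε`; `RS61.Bolt a b t₀ ε`: `a(t₀) = 0`,
  `a'(t₀) = ε`, `b(t₀) > 0`, `b'(t₀) = 0`.
* `RS61.ric pd (RS61.chr pd g (RS61.minv g))`: the Ricci curvature of `g`, `RS61.IsSoliton U g f lam`: the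
  equation `Ric_g + ∇² f = lam g` on `U`, `RS61.secNum g z u v`: `g(R(u, v) v, u)` at `z`. See
  `Pool/Agent/RS61/Defs.lean`, `Cohom.lean`, `HGeo.lean` and `HODE.lean`.
-/

namespace Pool.Agent.Results.MP_5be891_gt.UnitarySymmetry

open Set Filter Topology RS61
open scoped ContDiff

/-- Let `k` be a Riemannian metric and `α` a smooth 1-form on the nonempty open set `V ⊆ ℝ^κ`, `κ` not empty,
such that `F = dα` satisfies `F k⁻¹ Fᵀ = 4 k`. Let `a, b, f` be smooth with `a, b > 0` on `(0, T)` and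
`f'(0) = f'(T) = 0`, such that `a, b` have a nut or a bolt at `0` and at `T`. Let
`g = dt² + a(t)² (dθ + α)² + b(t)² k` satisfy `Ric_g + ∇² f = lam g`, `f = f(t)`, `lam > 0`, on
`(0, T) × ℝ × V`. If all planes spanned by `∂_t` and a vector `v ≠ 0` tangent to `ℝ × V` with `η(v) = 0` have
positive sectional curvature, then `f` is constant on `[0, T]` and `Ric_g = lam g`. -/
theorem result {κ : Type} [Fintype κ] [DecidableEq κ] [Nonempty κ] {T lam : ℝ} (hT : 0 < T)
    (hlam : 0 < lam) {a b f : ℝ → ℝ} (ha : ContDiff ℝ ∞ a) (hb : ContDiff ℝ ∞ b)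
    (hf : ContDiff ℝ ∞ f) (hap : ∀ t ∈ Ioo 0 T, 0 < a t) (hbp : ∀ t ∈ Ioo 0 T, 0 < b t)
    (h0 : Nut a b 0 1 ∨ Bolt a b 0 1) (h1 : Nut a b T (-1) ∨ Bolt a b T (-1))
    (hf0 : deriv f 0 = 0) (hfT : deriv f T = 0)
    {V : Set (κ → ℝ)} (hne : V.Nonempty) {k : κ → κ → Raw κ} (hk : IsRiem V k)
    {α : κ → Raw κ} (hα : ∀ i, ContDiffOn ℝ ∞ (α i) V)
    (hω : ∀ y ∈ V, ∀ i j, ∑ l, ∑ p, (pd i (α l) y - pd l (α i) y) * minv k l p y
      * (pd j (α p) y - pd p (α j) y) = 4 * k i j y)
    (hS : IsSoliton (cdom T (vop V)) (cmet (hop a b α k)) (fun z => f (z none)) lam)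
    (hsec : ∀ z ∈ cdom T (vop V), ∀ v : Option (Option κ) → ℝ, v ≠ 0 → v none = 0 →
      ∑ i, etaC α i (fun l => z (some l)) * v (some i) = 0 →
      0 < secNum (cmet (hop a b α k)) z (Pi.single none 1) v) :
    (∀ t ∈ Icc 0 T, f t = f 0) ∧
    ∀ z ∈ cdom T (vop V), ∀ i j, ric pd (chr pd (cmet (hop a b α k))
      (minv (cmet (hop a b α k)))) i j z = lam * cmet (hop a b α k) i j z := by
  obtain ⟨y, hy⟩ := hne
  obtain ⟨i₀⟩ := ‹Nonempty κ›
  have I : HGeo T V a b f α k := ⟨ha, hb, hf, hap, hbp, hk, hα, hω⟩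
  obtain ⟨m, hm⟩ := HGeo.card_even hω hk.posDef hy
  have hpos : 0 < Fintype.card κ := Fintype.card_pos_iff.2 ⟨i₀⟩
  have O := I.hdata hT hlam hy (by omega) hS
  have hdf := O.f1_zero h0 h1 hf0 hfT (I.b2_neg hy i₀ hsec) (m := m) (by omega) (by omega)
  refine ⟨IsBlock.const_of_deriv hf hdf, fun z hz i j => ?_⟩
  have h3 := I.isBlock.einstein_of_const (sol_tr hS) hdf _ ((cdom_iff z).1 hz)
    ((ie (Option κ)).symm i) ((ie (Option κ)).symm j)
  rw [ric_cmet, h3]
  congr 1
  have h4 := cmet_tr (hop a b α k) ((ie (Option κ)).symm i) ((ie (Option κ)).symm j)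
  rw [Equiv.apply_symm_apply, Equiv.apply_symm_apply] at h4
  rw [h4]
  rfl

end Pool.Agent.Results.MP_5be891_gt.UnitarySymmetry
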